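import Pool.Agent.Q298.BE.Fam
import Mathlib.SetTheory.Cardinal.Continuum

set_option autoImplicit false

/-!
A complete theory in a countable language with exactly four classes of countable models up to mutual
elementary embeddability and with continuum many countable models up to isomorphism.
-/

namespace Pool.Agent.Results.MP_683aef_lc.FourSimilarityClasses

open FirstOrder FirstOrder.Language
open Pool.Agent.Q298.BE

/-- The countably infinite models of `T`, with universe `ℕ`. -/
def CountableModel {L : Language.{0, 0}} (T : L.Theory) : Type :=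
  {S : L.Structure ℕ // @Theory.Model L ℕ S T}

/-- `A` elementarily embeds into `B`. -/
def Embeds {L : Language.{0, 0}} {T : L.Theory} (A B : CountableModel T) : Prop :=
  Nonempty (@FirstOrder.Language.ElementaryEmbedding L ℕ ℕ A.1 B.1)

theorem Embeds.refl {L : Language.{0, 0}} {T : L.Theory} (A : CountableModel T) : Embeds A A :=
  ⟨@FirstOrder.Language.ElementaryEmbedding.refl L ℕ A.1⟩

theorem Embeds.trans {L : Language.{0, 0}} {T : L.Theory} {A B C : CountableModel T}
    (h1 : Embeds A B) (h2 : Embeds B C) : Embeds A C := by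
  obtain ⟨f⟩ := h1
  obtain ⟨g⟩ := h2
  exact ⟨@FirstOrder.Language.ElementaryEmbedding.comp L ℕ ℕ ℕ A.1 B.1 C.1 g f⟩

/-- Similarity: `A` and `B` elementarily embed into each other. -/
def similar {L : Language.{0, 0}} (T : L.Theory) : Setoid (CountableModel T) where
  r A B := Embeds A B ∧ Embeds B A
  iseqv := ⟨fun A => ⟨Embeds.refl A, Embeds.refl A⟩, fun h => ⟨h.2, h.1⟩,
    fun h1 h2 => ⟨h1.1.trans h2.1, h2.2.trans h1.2⟩⟩

/-- Isomorphism. -/
def isomorphic {L : Language.{0, 0}} (T : L.Theory) : Setoid (CountableModel T) where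
  r A B := Nonempty (@FirstOrder.Language.Equiv L ℕ ℕ A.1 B.1)
  iseqv := ⟨fun A => ⟨@FirstOrder.Language.Equiv.refl L ℕ A.1⟩,
    fun {A B} h => h.elim fun f => ⟨@FirstOrder.Language.Equiv.symm L ℕ ℕ A.1 B.1 f⟩,
    fun {A B C} h1 h2 => h1.elim fun f => h2.elim fun g =>
      ⟨@FirstOrder.Language.Equiv.comp L ℕ ℕ A.1 B.1 ℕ C.1 g f⟩⟩

/-- The number of similarity classes of countable models of `T`. -/
noncomputable def B {L : Language.{0, 0}} (T : L.Theory) : Cardinal :=
  Cardinal.mk (Quotient (similar T))

/-- The number of countable models of `T` up to isomorphism. -/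
noncomputable def I {L : Language.{0, 0}} (T : L.Theory) : Cardinal :=
  Cardinal.mk (Quotient (isomorphic T))

/-- the theory -/
noncomputable def T : LL.Theory := @completeTheory LL ℕ (toLP (lim (four ∅))).str

theorem ep_of (A : CountableModel T) : EP (ofS A.1) := by
  refine (lim_ep _ (four_ok ∅)).transfer (fun φ => ?_)
  rw [str_ofS]
  have h := A.2
  let i1 := (toLP (lim (four ∅))).str
  let i2 := A.1
  have : @Theory.Model LL ℕ i2 (@completeTheory LL ℕ i1) := h
  exact (@realize_iff_of_model_completeTheory LL ℕ ℕ i1 i2 this φ).symm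

theorem model_of {A : LP ℕ} (h : EP A) : @Theory.Model LL ℕ A.str T := by
  let i2 := A.str
  refine ⟨fun φ hφ => ?_⟩
  exact (equivalent (lim_ep _ (four_ok ∅)) h φ).1 hφ

/-- the type of a model -/
def typ (A : CountableModel T) : Set Bool := {b | ∃ x, PS (ofS A.1) (b = true) x}

theorem embeds_iff (A C : CountableModel T) : Embeds A C ↔ typ A ⊆ typ C := by
  constructor
  · rintro ⟨f⟩ b ⟨x, hx⟩
    have e1 := str_ofS A.1
    have e2 := str_ofS C.1
    rw [← e1, ← e2] at f
    exact ⟨_, PS.map f hx⟩
  · intro h
    obtain ⟨F, hF⟩ := embed (ep_of A).ok (ep_of C) (fun s hs => by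
      by_cases h1 : s
      · have e : s = ((true : Bool) = true) := by simp [h1]
        rw [e] at hs ⊢
        exact h hs
      · have e : s = ((false : Bool) = true) := by simp [h1]
        rw [e] at hs ⊢
        exact h hs)
    have h1 := elem (ep_of A) (ep_of C) F hF
    rw [str_ofS, str_ofS] at h1
    exact h1

theorem card_B : B T = 4 := by
  have h1 : Cardinal.mk (Quotient (similar T)) = Cardinal.mk (Set Bool) := by
    refine Cardinal.mk_congr (Equiv.ofBijective (Quotient.lift typ fun A C h =>
      Set.Subset.antisymm ((embeds_iff A C).1 h.1) ((embeds_iff C A).1 h.2)) ⟨?_, fun s => ?_⟩)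
    · intro x y
      refine Quotient.inductionOn₂ x y fun A C h => Quotient.sound ?_
      have h : typ A = typ C := h
      exact ⟨(embeds_iff A C).2 h.subset, (embeds_iff C A).2 h.symm.subset⟩
    · refine ⟨Quotient.mk _ ⟨(toLP (lim (four s))).str, model_of (lim_ep _ (four_ok s))⟩, ?_⟩
      show {b | _} = s
      ext b
      exact ps_four s b
  unfold B
  rw [h1, Cardinal.mk_fintype, Fintype.card_set, Fintype.card_bool]
  norm_num

theorem card_I : I T = Cardinal.continuum := by
  refine le_antisymm ?_ ?_
  · refine Cardinal.mk_quotient_le.trans ?_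
    let f : CountableModel T → Set ((ℕ × ℕ) ⊕ ℕ ⊕ (ℕ × ℕ)) := fun A =>
      {p | match p with
        | .inl q => (ofS A.1).lt q.1 q.2
        | .inr (.inl x) => (ofS A.1).S x
        | .inr (.inr q) => (ofS A.1).U q.1 q.2}
    have hf : Function.Injective f := by
      intro A C h
      have h1 : ofS A.1 = ofS C.1 := by
        have e : ∀ p, p ∈ f A ↔ p ∈ f C := fun p => by rw [h]
        have e1 : (ofS A.1).lt = (ofS C.1).lt := by
          funext x y
          exact propext (e (.inl (x, y)))
        have e2 : (ofS A.1).S = (ofS C.1).S := by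
          funext x
          exact propext (e (.inr (.inl x)))
        have e3 : (ofS A.1).U = (ofS C.1).U := by
          funext k x
          exact propext (e (.inr (.inr (k, x))))
        cases h4 : ofS A.1
        cases h5 : ofS C.1
        rw [h4, h5] at e1 e2 e3
        simp only at e1 e2 e3
        subst e1 e2 e3
        rfl
      refine Subtype.ext ?_
      rw [← str_ofS A.1, ← str_ofS C.1, h1]
    refine (Cardinal.mk_le_of_injective hf).trans ?_
    rw [Cardinal.mk_set, Cardinal.mk_eq_aleph0, Cardinal.two_power_aleph0]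
  · rw [← Cardinal.two_power_aleph0, ← Cardinal.mk_nat, ← Cardinal.mk_set]
    refine Cardinal.mk_le_of_injective (f := fun s : Set ℕ => (Quotient.mk (isomorphic T)
      ⟨(toLP (lim (fam s))).str, model_of (lim_ep _ (fam_ok s))⟩)) fun s t h => ?_
    obtain ⟨σ⟩ := Quotient.exact h
    have h1 := Inv_equiv (A := toLP (lim (fam s))) (B := toLP (lim (fam t))) σ
    rw [Inv_fam, Inv_fam] at h1
    exact h1.symm

theorem countable_symbols : Countable LL.Symbols := by
  have h : Countable (Σ n, Rel n) := by
    refine Function.Injective.countable (f := fun r : (Σ n, Rel n) => match r with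
      | ⟨_, Rel.S⟩ => (0 : ℕ)
      | ⟨_, Rel.lt⟩ => 1
      | ⟨_, Rel.U n⟩ => n + 2) ?_
    rintro ⟨_, _ | n | _⟩ ⟨_, _ | m | _⟩ h <;> simp_all
  have h2 : Countable (Σ n, LL.Relations n) := h
  have h3 : Countable (Σ n, LL.Functions n) := by
    have : IsEmpty (Σ n, LL.Functions n) := ⟨fun f => isEmptyElim f.2⟩
    infer_instance
  unfold FirstOrder.Language.Symbols
  infer_instance

/-- There is a complete theory `T` in a countable language, all of whose models are infinite, such
that `B T = 4`, so that `2 < B T < ω`, and such that `T` has continuum many countable models up to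
isomorphism. -/
theorem result : ∃ (L : Language.{0, 0}) (T : L.Theory), Countable L.Symbols ∧ T.IsComplete ∧
    (∀ (M : Type) (S : L.Structure M), @Theory.Model L M S T → Infinite M) ∧
    B T = 4 ∧ I T = Cardinal.continuum := by
  refine ⟨LL, T, countable_symbols, ?_, ?_, card_B, card_I⟩
  · let := (toLP (lim (four ∅))).str
    exact completeTheory.isComplete LL ℕ
  · intro M S hM
    let i1 := (toLP (lim (four ∅))).str
    have h1 : @Theory.Model LL ℕ i1 (infiniteTheory LL) := (model_infiniteTheory_iff LL).2
      inferInstance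
    refine (model_infiniteTheory_iff LL).1 ⟨fun φ hφ => ?_⟩
    have h2 : φ ∈ T := h1.realize_of_mem φ hφ
    exact hM.realize_of_mem φ h2

end Pool.Agent.Results.MP_683aef_lc.FourSimilarityClasses
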